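import Mathlib
import Pool.Agent.H50.GS.Abel

/-!
# Commuting elements in non-ergodic minimal groups of C² circle diffeomorphisms
-/

set_option autoImplicit false
open Set Filter Topology MeasureTheory Pool.Agent.H50.GS

namespace Pool.Agent.Results.MP_20ddb5_an.CommutingElements

/-- Let `G` be a minimal group of C² circle diffeomorphisms in which no nontrivial element is the
identity on an interval. If `G` contains two commuting orientation preserving elements with a
common fixed point which generate a noncyclic group, then `G` is ergodic with respect to Lebesgue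
measure. -/
theorem result {G : Subgroup (Circle ≃ₜ Circle)} (hC : C2Group G) (hm : Minimal G)
    (hNI : ∀ g ∈ G, g ≠ 1 → ∀ s t : ℝ, s < t → ∃ r ∈ Ioo s t, g (Circle.exp r) ≠ Circle.exp r)
    {f h : Circle ≃ₜ Circle} (hfG : f ∈ G) (hhG : h ∈ G) (hf : IsPos f) (hh : IsPos h)
    (hfh : f * h = h * f) {x : Circle} (hfx : f x = x) (hhx : h x = x)
    (hcyc : ¬ IsCyclic (Subgroup.closure {f, h})) : LebErgodic G := by
  obtain ⟨p, rfl⟩ := Circle.exp_surjective x
  rcases abel hC hm hNI hfG hhG hf hh hfh hfx hhx with h | ⟨g0, hg0, h⟩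
  · exact h
  · refine absurd ⟨⟨⟨g0, hg0⟩, fun x => ?_⟩⟩ hcyc
    obtain ⟨k, hk⟩ := h x.1 x.2
    exact ⟨k, Subtype.ext (by simpa using hk.symm)⟩

end Pool.Agent.Results.MP_20ddb5_an.CommutingElements
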