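import Mathlib
import Pool.Agent.H50.GS.Stab

/-!
# Point stabilisers in non-ergodic minimal groups of C² circle diffeomorphisms
-/

set_option autoImplicit false
open Set Filter Topology MeasureTheory Pool.Agent.H50.GS

namespace Pool.Agent.Results.MP_20ddb5_an.CyclicStabilizers

/-- Let `G` be a minimal group of C² circle diffeomorphisms which is not ergodic with respect to
Lebesgue measure, and let `H ≤ G` be a group of orientation preserving elements fixing a point
`x = exp p`, none of which except the identity has fixed points accumulating at `x` from the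
right. Then `H` is cyclic. -/
theorem result {G : Subgroup (Circle ≃ₜ Circle)} (hC : C2Group G) (hm : Minimal G)
    (hne : ¬ LebErgodic G) (p : ℝ) (H : Subgroup (Circle ≃ₜ Circle)) (hHG : H ≤ G)
    (hfix : ∀ h ∈ H, h (Circle.exp p) = Circle.exp p) (hpos : ∀ h ∈ H, IsPos h)
    (hiso : ∀ h ∈ H, h ≠ 1 → ∀ᶠ t in 𝓝[>] p, h (Circle.exp t) ≠ Circle.exp t) :
    IsCyclic H := by
  rcases stab hC hm p H hHG hfix hpos hiso with h | ⟨h0, hh0, h⟩
  · exact absurd h hne
  · refine ⟨⟨⟨h0, hh0⟩, fun x => ?_⟩⟩
    obtain ⟨k, hk⟩ := h x.1 x.2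
    exact ⟨k, Subtype.ext (by simpa using hk.symm)⟩

end Pool.Agent.Results.MP_20ddb5_an.CyclicStabilizers
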