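import Mathlib
import Pool.Agent.H50.GS.FewFix

/-!
# Near-identity elements with few fixed points force Lebesgue ergodicity
-/

set_option autoImplicit false
open Set Filter Topology MeasureTheory Pool.Agent.H50.GS

namespace Pool.Agent.Results.MP_20ddb5_an.FewFixedPoints

/-- Let `G` be a minimal group of C² circle diffeomorphisms. Suppose that on some interval
`(α, β)` there are local lifts `U n` of elements of `G` which converge uniformly to the identity,
with `U n' > 1/2`, `|U n''| ≤ M`, and with at most `K` fixed points. Then `G` is ergodic with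
respect to Lebesgue measure. -/
theorem result {G : Subgroup (Circle ≃ₜ Circle)} (hC : C2Group G) (hm : Minimal G)
    {α β : ℝ} (hαβ : α < β) {U : ℕ → ℝ → ℝ}
    (hU : ∀ n, ∃ g ∈ G, ∀ t ∈ Ioo α β, Circle.exp (U n t) = g (Circle.exp t))
    (hU2 : ∀ n, ContDiffOn ℝ 2 (U n) (Ioo α β))
    (h0 : ∀ ε > 0, ∃ N, ∀ n ≥ N, ∀ t ∈ Ioo α β, |U n t - t| < ε)
    (h1 : ∀ n, ∀ t ∈ Ioo α β, 1 / 2 < deriv (U n) t)
    {M : ℝ} (h2 : ∀ n, ∀ t ∈ Ioo α β, |deriv (deriv (U n)) t| ≤ M)
    {K : ℕ} (hK : ∀ n, {t | t ∈ Ioo α β ∧ U n t = t}.encard ≤ K) : LebErgodic G :=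
  fewFix hC hm hαβ hU hU2 h0 h1 h2 hK

end Pool.Agent.Results.MP_20ddb5_an.FewFixedPoints
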