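import Mathlib
import Pool.Agent.H50.GS.Disc

/-!
# Non-ergodic minimal groups of C² circle diffeomorphisms are locally discrete
-/

set_option autoImplicit false
open Set Filter Topology MeasureTheory Pool.Agent.H50.GS

namespace Pool.Agent.Results.MP_20ddb5_an.LocallyDiscrete

/-- Let `G` be a minimal group of C² circle diffeomorphisms which is not ergodic with respect to
Lebesgue measure, every nontrivial element of which has only finitely many fixed points, and
suppose that some element of `G` has a hyperbolic fixed point. Then `G` is locally discrete: for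
every interval `(α, β)` and every `M` there is `ε > 0` such that no nontrivial element of `G` has a
local lift `U` on `(α, β)` with `|U - id| < ε`, `|U' - 1| < ε` and `|U''| ≤ M`. -/
theorem result {G : Subgroup (Circle ≃ₜ Circle)} (hC : C2Group G) (hm : Minimal G)
    (hne : ¬ LebErgodic G) (hfin : ∀ g ∈ G, g ≠ 1 → {x : Circle | g x = x}.Finite)
    (hhyp : ∃ f ∈ G, ∃ (p : ℝ) (u : ℝ → ℝ), FixLift p f u ∧ deriv u p ≠ 1)
    {α β : ℝ} (hαβ : α < β) (M : ℝ) :
    ∃ ε > 0, ∀ g ∈ G, g ≠ 1 → ∀ U : ℝ → ℝ, ContDiffOn ℝ 2 U (Ioo α β) →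
      (∀ t ∈ Ioo α β, Circle.exp (U t) = g (Circle.exp t)) →
      ¬ (∀ t ∈ Ioo α β, |U t - t| < ε ∧ |deriv U t - 1| < ε ∧ |deriv (deriv U) t| ≤ M) := by
  by_contra hcon
  push_neg at hcon
  obtain ⟨f, hfG, p, u, hu, hup⟩ := hhyp
  choose! g hgG hg1 U hU2 hUg hUb using fun n : ℕ =>
    hcon (1 / ((n : ℝ) + 1)) (by positivity)
  have hlim : ∀ ε > 0, ∃ N : ℕ, ∀ n ≥ N, 1 / ((n : ℝ) + 1) < ε := by
    intro ε hε
    obtain ⟨N, hN⟩ := exists_nat_one_div_lt hε
    refine ⟨N, fun n hn => lt_of_le_of_lt ?_ hN⟩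
    have : (N : ℝ) ≤ n := by exact_mod_cast hn
    gcongr
  refine hne (disc hC hm hfG hu hup ?_ hαβ (U := U) (fun n => ⟨g n, hgG n, hg1 n, hUg n⟩) hU2
    ?_ ?_ (M := M) (fun n t ht => (hUb n t ht).2.2))
  · intro k hkG _ _ hk1
    have hfinset := hfin k hkG hk1
    -- finitely many fixed points: none in a small punctured right neighbourhood
    have hS : ({x : Circle | k x = x} \ {Circle.exp p}).Finite := hfinset.subset diff_subset
    have hopen : IsOpen (({x : Circle | k x = x} \ {Circle.exp p})ᶜ) := hS.isClosed.isOpen_compl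
    have hmem : Circle.exp p ∈ (({x : Circle | k x = x} \ {Circle.exp p})ᶜ) := by simp
    have hev : ∀ᶠ t in 𝓝 p, Circle.exp t ∈ (({x : Circle | k x = x} \ {Circle.exp p})ᶜ) :=
      (Circle.exp.continuous.continuousAt (x := p)).eventually (hopen.mem_nhds hmem)
    have hne' : ∀ᶠ t in 𝓝[>] p, Circle.exp t ≠ Circle.exp p := by
      have h2 : ∀ᶠ t in 𝓝[>] p, t ∈ Ioo p (p + 2 * Real.pi) :=
        Ioo_mem_nhdsGT (by linarith [Real.two_pi_pos])
      filter_upwards [h2] with t ht heq
      rw [Circle.exp_eq_exp] at heq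
      obtain ⟨m, hm'⟩ := heq
      have h3 : (m : ℝ) * (2 * Real.pi) = t - p := by linarith
      have hpos : 0 < (m : ℝ) * (2 * Real.pi) := by rw [h3]; linarith [ht.1]
      have hlt : (m : ℝ) * (2 * Real.pi) < 2 * Real.pi := by rw [h3]; linarith [ht.2]
      have hm0 : (0 : ℝ) < m := by
        by_contra hcontra
        push_neg at hcontra
        nlinarith [Real.two_pi_pos]
      have hm1 : (m : ℝ) < 1 := by
        by_contra hcontra
        push_neg at hcontra
        nlinarith [Real.two_pi_pos]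
      have : (0 : ℤ) < m := by exact_mod_cast hm0
      have : m < (1 : ℤ) := by exact_mod_cast hm1
      omega
    filter_upwards [nhdsWithin_le_nhds hev, hne'] with t h1 h2 h3
    exact h1 ⟨h3, h2⟩
  · intro ε hε
    obtain ⟨N, hN⟩ := hlim ε hε
    exact ⟨N, fun n hn t ht => lt_trans (hUb n t ht).1 (hN n hn)⟩
  · intro ε hε
    obtain ⟨N, hN⟩ := hlim ε hε
    exact ⟨N, fun n hn t ht => lt_trans (hUb n t ht).2.1 (hN n hn)⟩

end Pool.Agent.Results.MP_20ddb5_an.LocallyDiscrete
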