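import Mathlib
import Pool.Agent.H50.GSD.D18

/-!
# Minimal groups of real-analytic circle diffeomorphisms are Lebesgue ergodic

The circle is `Circle ⊆ ℂ`, parametrised by `t ↦ exp (i t)`.
-/

set_option autoImplicit false
open Set Filter Topology MeasureTheory

namespace Pool.Agent.Results.MP_20ddb5_an.RealAnalytic

/-- All elements of `G` are real-analytic diffeomorphisms of the circle (orientation preserving or
not): each has a real-analytic lift whose derivative never vanishes. -/
def AnalyticGroup (G : Subgroup (Circle ≃ₜ Circle)) : Prop :=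
  ∀ g ∈ G, ∃ u : ℝ → ℝ, AnalyticOnNhd ℝ u univ ∧ (∀ t, deriv u t ≠ 0) ∧
    ∀ t, Circle.exp (u t) = g (Circle.exp t)

/-- The action of `G` on the circle is minimal: there is no proper nonempty closed invariant set. -/
def MinimalAction (G : Subgroup (Circle ≃ₜ Circle)) : Prop :=
  ∀ C : Set Circle, IsClosed C → (∀ g ∈ G, ⇑g ⁻¹' C = C) → C = ∅ ∨ C = univ

/-- The action of `G` is ergodic with respect to Lebesgue measure. -/
def LebesgueErgodic (G : Subgroup (Circle ≃ₜ Circle)) : Prop :=
  ∀ A : Set Circle, MeasurableSet (⇑Circle.exp ⁻¹' A) → (∀ g ∈ G, ⇑g ⁻¹' A = A) →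
    volume (⇑Circle.exp ⁻¹' A) = 0 ∨ volume (⇑Circle.exp ⁻¹' Aᶜ) = 0

/-- **The Ghys-Sullivan question has a positive answer for real-analytic groups**: every finitely
generated group of real-analytic circle diffeomorphisms which acts minimally on the circle is
ergodic with respect to Lebesgue measure. -/
theorem result (G : Subgroup (Circle ≃ₜ Circle)) (hG : AnalyticGroup G) (hfg : G.FG)
    (hm : MinimalAction G) : LebesgueErgodic G :=
  Pool.Agent.H50.GSD.ergodic_full hG hm hfg

end Pool.Agent.Results.MP_20ddb5_an.RealAnalytic
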